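import Pool.Agent.Y139.ID.Cont

/-!
# The laws of the Frobenius classes of compatible families are algebraic

`K` is a number field, `V` a polarized family of representations of dimension `N` and weight `n` as in the
problem; `θ v = (θ_{v,1}, …, θ_{v,N})`, modulo one, are the Frobenius angles: the eigenvalues of the
Frobenius at `v` are `q_v^{n/2} e(θ_{v,j})`, so the class of `θ v` in `T^N/S_N`, `T = ℝ/ℤ`, is the
conjugacy class of `x_v` in `U(N)`.  By the polarization the multiset of the `e(θ_{v,j})` is stable under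
complex conjugation.  No assumption on the Sato-Tate group is made.

`L(s, k)`, `k = (k_1, …, k_r)`, is the `L`-function of `Λ^{k_1} V ⊗ ⋯ ⊗ Λ^{k_r} V`, with edge at `Re s = 1`,
and `x_k(ε) = log |L(1 + ε, k)| / log(1/ε)`.  The definitions are in `Pool.Agent.Y139.ID`: `Defs`, `Law`
(`AlgebraicLaw`), `Haar` (`IsHaarOn`, `trig`), `Tor2` (`annih`), `Sym` (`ev`, `es`, `chiW`, `SD`) and `Meas`
(`SymFun`).
-/

set_option autoImplicit false

namespace Pool.Agent.Results.MP_4c4ce6_nt.AlgebraicLaws

open NumberField IsDedekindDomain Filter Topology Polynomial MeasureTheory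
open Pool.Agent.Y139.ID (AlgebraicLaw SymFun IsSelfDual IsWordSystem LProd lsize avg IntegralOrders
  LocalContinuation)

/-- **The laws of the Frobenius classes are algebraic.**  For every `N` there is a countable set of
algebraic laws on `T^N/S_N`: `N!` times such a law is a sum of at most `N!` measures, each of them a
trigonometric polynomial with integer coefficients times the Haar measure of a closed subgroup of `T^N`,
and all its moments `∫ tr(Λ^{k_1} ⊗ ⋯ ⊗ Λ^{k_r})` are integers.
* (No hypothesis.)  Let `f_1, …, f_m` be continuous symmetric functions on `T^N` and `δ > 0`.  There are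
  `η > 0` and `R`, depending only on these, such that for all `K` and `V` and all small `ε > 0`:
  one of the finitely many numbers `x_k(ε)`, `k = (k_1, …, k_r)`, `r ≤ R`, `k_j ≤ N`, has a distance more
  than `η` from the integers, or there is an algebraic law `ν` such that the mean values of the
  `f_i(θ v)` with the weights `q_v^{-1-ε}` differ from `∫ f_i dν` by at most `δ`.
* If the functions `L(s, k)` have meromorphic continuations to neighbourhoods of `s = 1`, then all
  `x_k(ε)` tend to integers as `ε → 0+`.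
* If all `x_k(ε)` tend to integers, then the `θ v` have a law in the sense of Dirichlet density, and it is
  algebraic. -/
theorem result :
    (∀ N : ℕ, {ν : Measure (UnitAddTorus (Fin N)) | AlgebraicLaw N ν}.Countable) ∧
    (∀ (N m : ℕ) (f : Fin m → UnitAddTorus (Fin N) → ℝ), (∀ i, Continuous (f i)) →
      (∀ i, SymFun (f i)) → ∀ δ : ℝ, 0 < δ →
      ∃ (η : ℝ) (R : ℕ), 0 < η ∧ ∀ (K : Type) [Field K] [NumberField K]
        (θ : HeightOneSpectrum (𝓞 K) → UnitAddTorus (Fin N))
        (B : ∀ r : ℕ, (Fin r → ℕ) → HeightOneSpectrum (𝓞 K) → ℂ[X]), IsSelfDual θ →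
        (∀ (r : ℕ) (k : Fin r → ℕ), r ≤ R → (∀ j, k j ≤ N) → IsWordSystem θ k (B r k)) →
        ∀ᶠ ε : ℝ in 𝓝[>] 0,
          (∃ (r : ℕ) (k : Fin r → ℕ), r ≤ R ∧ (∀ j, k j ≤ N) ∧
            ∀ n : ℤ, η < |lsize (B r k) ε - n|) ∨
          ∃ ν : Measure (UnitAddTorus (Fin N)), AlgebraicLaw N ν ∧
            ∀ i, |avg (fun v => f i (θ v)) ε - ∫ x, f i x ∂ν| ≤ δ) ∧
    ∀ (K : Type) [Field K] [NumberField K] (N : ℕ)
      (θ : HeightOneSpectrum (𝓞 K) → UnitAddTorus (Fin N)), IsSelfDual θ →
      (LocalContinuation θ → IntegralOrders θ) ∧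
      (IntegralOrders θ → ∃ ν : Measure (UnitAddTorus (Fin N)), AlgebraicLaw N ν ∧
        ∀ f : UnitAddTorus (Fin N) → ℝ, Continuous f → SymFun f →
          Tendsto (avg fun v => f (θ v)) (𝓝[>] 0) (𝓝 (∫ x, f x ∂ν))) :=
  ⟨Pool.Agent.Y139.ID.countable_laws,
    fun N _ f hf hs _ hδ => Pool.Agent.Y139.ID.finite_level N f hf hs hδ,
    fun _ _ _ _ _ hθ => ⟨Pool.Agent.Y139.ID.integral_of_cont hθ,
      Pool.Agent.Y139.ID.law_exists hθ⟩⟩

end Pool.Agent.Results.MP_4c4ce6_nt.AlgebraicLaws
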