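import Pool.Agent.Y798.PS.Gov

/-!
# From the Sato-Tate law over extensions of bounded rank to the law over the base field

`K` is a number field, `G` the Sato-Tate group over `K` of a family as in the problem (connected or not)
and `x_v ∈ G` an element of the class of the prime `v` of `K`.  If `F` is a finite extension of `K` which
meets only in `K` the finite Galois extension of `K` that belongs to the group of components of `G`, then `G` is also
the Sato-Tate group over `F`, and for the class `y_w` of a prime `w` of `F` of residue degree one over the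
prime `v` of `K` we have `y_w = x_v`.

Potential automorphy gives the law over extensions `F` of `K` which one does not control, except that they can be
taken disjoint from any given finite Galois extension `M` of `K`.  The usual way back to `K` is Brauer induction and
needs automorphy over all fields between `K` and a Galois extension with solvable Galois group over them.
The theorem goes back to `K` with no automorphy and no continuation at all, from the law over the fields
`F` alone: it is enough that they have bounded rank.  The rank `numFields (F, F)` is the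
number of fields of which `F ⊗_K F` is the product; it is at most the degree, and it is `2` for all
extensions with doubly transitive Galois group, of any degree, for instance with the symmetric group.

More generally the fields may be combined with real coefficients.  For pairwise disjoint fields of ranks
`r_i` the best coefficients, proportional to `1 / (r_i - 1)`, give the value `1 + 1 / ∑ 1 / (r_i - 1)` of the form.
-/

set_option autoImplicit false

namespace Pool.Agent.Results.MP_4c4ce6_nt.BoundedRankDescent

open NumberField IsDedekindDomain Filter Topology MeasureTheory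
open scoped TensorProduct

section

variable {F : Type} [Field F] [NumberField F]

/-- The average of `φ` over the primes of `F` of norm at most `N`. -/
noncomputable def avg (φ : HeightOneSpectrum (𝓞 F) → ℂ) (N : ℕ) : ℂ :=
  (∑ᶠ w : {w : HeightOneSpectrum (𝓞 F) // Ideal.absNorm w.asIdeal ≤ N}, φ w.1) /
    (Nat.card {w : HeightOneSpectrum (𝓞 F) // Ideal.absNorm w.asIdeal ≤ N} : ℂ)

/-- The defect of the law for `f` over `F`: the upper limit of the distance between the averages of
`f (y w)` over the primes of norm at most `N` and the integral of `f`. -/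
noncomputable def defect {G : Type} [MeasurableSpace G] (y : HeightOneSpectrum (𝓞 F) → G)
    (f : G → ℂ) (μ : Measure G) : ℝ :=
  limsup (fun N => ‖avg (fun w => f (y w)) N - ∫ g, f g ∂μ‖) atTop

/-- The classes of the `y w` are equidistributed for `μ`. -/
def Equidistributed {G : Type} [Group G] [TopologicalSpace G] [MeasurableSpace G]
    (y : HeightOneSpectrum (𝓞 F) → G) (μ : Measure G) : Prop :=
  ∀ f : G → ℂ, Continuous f → (∀ g h, f (h * g * h⁻¹) = f g) →
    Tendsto (avg fun w => f (y w)) atTop (𝓝 (∫ g, f g ∂μ))

/-- `y w` is a conjugate of `x v` for all but finitely many primes `w` of `F` of residue degree one over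
the prime `v` of `K` below `w`. -/
def BaseChange {K : Type} [Field K] [NumberField K] [Algebra K F] {G : Type} [Group G]
    (x : HeightOneSpectrum (𝓞 K) → G) (y : HeightOneSpectrum (𝓞 F) → G) : Prop :=
  ∃ S : Finset (HeightOneSpectrum (𝓞 F)), ∀ w, w ∉ S → ∀ v : HeightOneSpectrum (𝓞 K),
    w.asIdeal.comap (algebraMap (𝓞 K) (𝓞 F)) = v.asIdeal →
    Ideal.absNorm w.asIdeal = Ideal.absNorm v.asIdeal → ∃ h : G, y w = h * x v * h⁻¹

/-- The number of fields whose product is `F ⊗_K F'`. -/
noncomputable def numFields (K F F' : Type) [Field K] [Field F] [Field F'] [Algebra K F]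
    [Algebra K F'] : ℕ := Nat.card (MaximalSpectrum (F ⊗[K] F'))

/-- The number `∑ c_i c_j numFields (F_i, F_j)`. -/
noncomputable def form (K : Type) [Field K] {ι : Type} [Fintype ι] (F : ι → Type)
    [∀ i, Field (F i)] [∀ i, Algebra K (F i)] (c : ι → ℝ) : ℝ :=
  ∑ i, ∑ j, c i * c j * (numFields K (F i) (F j) : ℝ)

end

section Bridge

set_option linter.unusedSectionVars false

open Pool.Agent.TH553.ST Pool.Agent.W540.BE Pool.Agent.Y798.PS

variable {K : Type} [Field K] [NumberField K]

theorem avg_eq (g : HeightOneSpectrum (𝓞 K) → ℂ) : avg g = mn g := by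
  funext N
  have hs : ∀ v, v ∈ upto K N ↔ Ideal.absNorm v.asIdeal ≤ N := fun v => mem_upto
  let e : {v : HeightOneSpectrum (𝓞 K) // Ideal.absNorm v.asIdeal ≤ N} ≃ (upto K N) :=
    Equiv.subtypeEquivRight fun v => (hs v).symm
  have hfin : Finite {v : HeightOneSpectrum (𝓞 K) // Ideal.absNorm v.asIdeal ≤ N} :=
    Finite.of_equiv _ e.symm
  unfold avg mn
  have h1 : (∑ᶠ v : {v : HeightOneSpectrum (𝓞 K) // Ideal.absNorm v.asIdeal ≤ N}, g v.1) =
      ∑ v ∈ upto K N, g v := by
    rw [← Finset.sum_coe_sort, ← finsum_eq_sum_of_fintype, ← finsum_comp_equiv e]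
    rfl
  have h2 : Nat.card {v : HeightOneSpectrum (𝓞 K) // Ideal.absNorm v.asIdeal ≤ N} =
      (upto K N).card := by
    rw [Nat.card_congr e, Nat.card_eq_fintype_card, Fintype.card_coe]
  rw [h1, h2, Complex.real_smul, div_eq_inv_mul]
  push_cast
  rfl

variable {G : Type} [Group G] [TopologicalSpace G] [CompactSpace G] [MeasurableSpace G]
  {μ : Measure G}

theorem defect_eq (x : HeightOneSpectrum (𝓞 K) → G) (f : G → ℂ) :
    defect x f μ = Pool.Agent.Y798.PS.df (fun v => f (x v)) (∫ g, f g ∂μ) := by
  unfold defect Pool.Agent.Y798.PS.df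
  rw [avg_eq]

theorem bounded (x : HeightOneSpectrum (𝓞 K) → G) {f : G → ℂ} (hf : Continuous f) :
    Pool.Agent.Y798.PS.BC fun v => f (x v) := by
  obtain ⟨C, hC⟩ := (isCompact_univ (X := G)).exists_bound_of_continuousOn hf.continuousOn
  exact ⟨C, fun v => hC _ (Set.mem_univ _)⟩

theorem tendsto_of_defect {x : HeightOneSpectrum (𝓞 K) → G} {f : G → ℂ} (hf : Continuous f)
    (h : defect x f μ ≤ 0) : Tendsto (avg fun v => f (x v)) atTop (𝓝 (∫ g, f g ∂μ)) := by
  rw [defect_eq] at h
  rw [avg_eq, Metric.tendsto_nhds]
  intro ε hε
  filter_upwards [Pool.Agent.Y798.PS.df_ev (bounded x hf) (∫ g, f g ∂μ) (lt_of_le_of_lt h hε)] with N hN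
  rwa [dist_eq_norm]

theorem defect_of_tendsto {x : HeightOneSpectrum (𝓞 K) → G} {f : G → ℂ}
    (h : Tendsto (avg fun v => f (x v)) atTop (𝓝 (∫ g, f g ∂μ))) : defect x f μ = 0 := by
  have h1 := (h.sub_const (∫ g, f g ∂μ)).norm
  rw [sub_self, norm_zero] at h1
  exact h1.limsup_eq

end Bridge

/-- **From the Sato-Tate law over extensions of bounded rank to the law over `K`.**  Let `K` be a number
field, `G` a compact group with Haar probability measure `μ` and `x_v ∈ G` for the primes `v` of `K`.

I.  For every continuous class function `f` on `G`, every real number `C` and every `η > 0` there is a finite Galois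
extension `M` of `K` such that for all finite families of number fields `F_i ⊇ K` with `F_i ∩ M = K`, for all base
changes `y_i` of `x` to the `F_i` and for all real `c_i` with `∑ c_i = 1` and
`∑ c_i c_j numFields (F_i, F_j) ≤ C` the defects of the law for `f` satisfy
`defect over K ≤ ∑ |c_i| (defect over F_i) + η`.

II.  So if there is a number `C` such that for every finite Galois extension `M` of `K` there are `F_i`, `y_i`
and `c_i` as in I over which the classes of the `y_i(w)` are equidistributed, then the classes of the `x_v`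
are equidistributed.  For one field the condition is that the rank `numFields (F, F)` is at most `C`. -/
theorem result (K : Type) [Field K] [NumberField K]
    (G : Type) [Group G] [TopologicalSpace G] [IsTopologicalGroup G] [CompactSpace G]
    [MeasurableSpace G] [BorelSpace G] (μ : Measure G) [IsProbabilityMeasure μ] [μ.IsHaarMeasure]
    (x : HeightOneSpectrum (𝓞 K) → G) :
    (∀ f : G → ℂ, Continuous f → (∀ g h, f (h * g * h⁻¹) = f g) → ∀ C η : ℝ, 0 < η →
      ∃ M : IntermediateField K (AlgebraicClosure K), FiniteDimensional K M ∧ IsGalois K M ∧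
        ∀ (ι : Type) [Fintype ι] (F : ι → IntermediateField K (AlgebraicClosure K))
          [∀ i, NumberField (F i)] (y : ∀ i, HeightOneSpectrum (𝓞 (F i)) → G) (c : ι → ℝ),
          (∀ i, F i ⊓ M = ⊥) → (∀ i, BaseChange x (y i)) → ∑ i, c i = 1 →
          form K (fun i => F i) c ≤ C →
          defect x f μ ≤ ∑ i, |c i| * defect (y i) f μ + η) ∧
    ((∃ C : ℝ, ∀ M : IntermediateField K (AlgebraicClosure K), FiniteDimensional K M →
        IsGalois K M →
        ∃ (ι : Type) (_ : Fintype ι) (F : ι → IntermediateField K (AlgebraicClosure K))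
          (_ : ∀ i, NumberField (F i)) (y : ∀ i, HeightOneSpectrum (𝓞 (F i)) → G) (c : ι → ℝ),
          (∀ i, F i ⊓ M = ⊥) ∧ (∀ i, BaseChange x (y i)) ∧ ∑ i, c i = 1 ∧
          form K (fun i => F i) c ≤ C ∧ ∀ i, Equidistributed (y i) μ) →
      Equidistributed x μ) := by
  have key : ∀ f : G → ℂ, Continuous f → (∀ g h, f (h * g * h⁻¹) = f g) → ∀ C η : ℝ, 0 < η →
      ∃ M : IntermediateField K (AlgebraicClosure K), FiniteDimensional K M ∧ IsGalois K M ∧
        ∀ (ι : Type) [Fintype ι] (F : ι → IntermediateField K (AlgebraicClosure K))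
          [∀ i, NumberField (F i)] (y : ∀ i, HeightOneSpectrum (𝓞 (F i)) → G) (c : ι → ℝ),
          (∀ i, F i ⊓ M = ⊥) → (∀ i, BaseChange x (y i)) → ∑ i, c i = 1 →
          form K (fun i => F i) c ≤ C →
          defect x f μ ≤ ∑ i, |c i| * defect (y i) f μ + η := by
    intro f hf hcl C η hη
    obtain ⟨M, hM1, hM2, hM⟩ := Pool.Agent.Y798.PS.gov (bounded x hf) (∫ g, f g ∂μ) C η hη
    refine ⟨M, hM1, hM2, fun ι _ F _ y c hF hy hc hC => ?_⟩
    have h1 := hM ι F (fun i w => f (y i w)) c hF (fun i => bounded (y i) hf) (fun i => by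
      obtain ⟨S, hS⟩ := hy i
      refine ⟨S, fun w hw v h1 h2 => ?_⟩
      obtain ⟨h, hh⟩ := hS w hw v h1 h2
      simp only [hh, hcl]) hc hC
    rw [defect_eq]
    simp only [defect_eq]
    exact h1
  refine ⟨key, ?_⟩
  rintro ⟨C, hC⟩ f hf hcl
  refine tendsto_of_defect hf (le_of_forall_pos_le_add fun η hη => ?_)
  obtain ⟨M, hM1, hM2, hM⟩ := key f hf hcl C η hη
  obtain ⟨ι, hι, F, hF, y, c, h1, h2, h3, h4, h5⟩ := hC M hM1 hM2
  have h6 := hM ι F y c h1 h2 h3 h4
  have h7 : ∑ i, |c i| * defect (y i) f μ = 0 :=
    Finset.sum_eq_zero fun i _ => by rw [defect_of_tendsto (h5 i f hf hcl), mul_zero]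
  rwa [h7] at h6

end Pool.Agent.Results.MP_4c4ce6_nt.BoundedRankDescent
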