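import Pool.Agent.Y798.FC.Near2
import Pool.Agent.Y798.FC.Blk
import Pool.Agent.Y689.FC2.Trans
import Pool.Agent.Y495.FC.Div
import Pool.Agent.H70FC.Str
import Pool.Agent.Y37.FC.Taub
import Pool.Agent.Y681.FC.Im
import Pool.Agent.Y188.FC.Fix
import Pool.Agent.Y824.FC.BC
import Pool.Agent.Y794.FC.Mix
import Pool.Agent.Y484.FC2.Orb
import Pool.Agent.Y839.FC2.Fun
import Pool.Agent.Y448.FC2.Fv
import Pool.Agent.Y125.FC3.Log

/-!
# The Sato-Tate law from finitely many orders at `s = 1`, jointly with the Frobenius elements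

`G` is a compact connected semisimple Lie group, for instance a Sato-Tate group of this kind or the product of the
Sato-Tate groups of several families; `T = (ℝ/ℤ)^r` is a maximal torus, `ℤ^r` the lattice of its characters,
`e_μ(x) = exp(2πi⟨μ, x⟩)`, `W` the Weyl group and `Φ` the set of the positive roots.  The classes of `G` are
the orbits of `W` on `T`, and a family of classes is given by `θ_v ∈ T`, `v` a prime of the number field `K`.
The characters of `G` and the orbit sums `m_μ = ∑_{ν ∈ Wμ} e_ν` generate the same ring, and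
`L_μ(s) = ∏_v ∏_{ν ∈ Wμ} (1 - e_ν(θ_v) q_v^{-s})⁻¹`, which is a product of integral powers of the `L`-functions of
the representations of `G`, belongs to `m_μ`.

There is a finite set `F` of characters, which depends only on `(W, Φ)`, such that for all number fields and
all families with local meromorphic continuations near the line `Re s = 1`, with zeros and poles of any orders,
the Sato-Tate law over `K` and the joint law with the Frobenius elements of all finite Galois extensions and the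
Sato-Tate law over all finite extensions are equivalent to: the `L_μ`, `μ ∈ F`, have the right orders at
`s = 1`, and the classes are not concentrated near the zeros of `∑_{ν ∈ Wμ} |1 - e_ν|` for a `μ ≠ 0`.
-/

set_option autoImplicit false

namespace Pool.Agent.Results.MP_4c4ce6_nt.FiniteOrderCriterion

open NumberField IsDedekindDomain Filter Topology MeasureTheory UnitAddTorus

section

variable {r : ℕ}

/-- The automorphism of the torus dual to the automorphism `w` of the lattice of characters: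
`e_μ(act w x) = e_{wμ}(x)`. -/
noncomputable def act (w : (Fin r → ℤ) ≃ₗ[ℤ] (Fin r → ℤ)) (x : UnitAddTorus (Fin r)) :
    UnitAddTorus (Fin r) := fun j => ∑ i, (w (Pi.single j 1) i) • x i

/-- Weyl's density `D(x) = ∏_{α ∈ Φ} |1 - e_α(x)|²`. -/
noncomputable def weylDensity (Φ : Finset (Fin r → ℤ)) (x : UnitAddTorus (Fin r)) : ℝ :=
  ∏ α ∈ Φ, ‖1 - mFourier α x‖ ^ 2

/-- `W` is a finite group of automorphisms of the lattice of characters, `Φ` a finite set of nonzero
characters, `D` is invariant under `W`, its mean value on the torus is `|W|`, and `0` is the only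
character invariant under `W`.  The Weyl group and the positive roots of a compact connected semisimple Lie
group have these properties (Weyl's integration formula). -/
structure IsWeylDatum (W : Subgroup ((Fin r → ℤ) ≃ₗ[ℤ] (Fin r → ℤ))) (Φ : Finset (Fin r → ℤ)) :
    Prop where
  finite : Finite W
  ne_zero : ∀ α ∈ Φ, α ≠ 0
  invariant : ∀ w ∈ W, ∀ x, weylDensity Φ (act w x) = weylDensity Φ x
  mean : ∫ x, weylDensity Φ x ∂(Measure.pi fun _ : Fin r => AddCircle.haarAddCircle) = Nat.card W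
  semisimple : ∀ μ : Fin r → ℤ, (∀ w ∈ W, w μ = μ) → μ = 0

variable (W : Subgroup ((Fin r → ℤ) ≃ₗ[ℤ] (Fin r → ℤ))) (Φ : Finset (Fin r → ℤ))

/-- `f` is a class function: it is invariant under `W`. -/
def IsClassFunction (f : UnitAddTorus (Fin r) → ℝ) : Prop := ∀ w ∈ W, ∀ x, f (act w x) = f x

/-- The mean value of a class function for the Haar measure of `G`: `|W|⁻¹ ∫ f D`. -/
noncomputable def haarMean (f : UnitAddTorus (Fin r) → ℝ) : ℝ :=
  (Nat.card W : ℝ)⁻¹ *
    ∫ x, f x * weylDensity Φ x ∂(Measure.pi fun _ : Fin r => AddCircle.haarAddCircle)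

/-- The orbit of a character. -/
def orbit (μ : Fin r → ℤ) : Set (Fin r → ℤ) := {ν | ∃ w ∈ W, w μ = ν}

/-- The orbit sum `m_μ`. -/
noncomputable def orbitSum (μ : Fin r → ℤ) (x : UnitAddTorus (Fin r)) : ℂ :=
  ∑ᶠ ν ∈ orbit W μ, mFourier ν x

/-- `∑_{ν ∈ Wμ} |1 - e_ν(x)|`. -/
noncomputable def deviation (μ : Fin r → ℤ) (x : UnitAddTorus (Fin r)) : ℝ :=
  ∑ᶠ ν ∈ orbit W μ, ‖1 - mFourier ν x‖

/-- `ρ` is the invariant probability measure on the coset `C` of a closed subgroup of the torus. -/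
structure IsCosetMeasure (C : Set (UnitAddTorus (Fin r)))
    (ρ : Measure (UnitAddTorus (Fin r))) : Prop where
  nonempty : C.Nonempty
  closed : IsClosed C
  coset : ∀ x ∈ C, ∀ y ∈ C, ∀ z ∈ C, x - y + z ∈ C
  prob : IsProbabilityMeasure ρ
  supp : ρ Cᶜ = 0
  inv : ∀ x ∈ C, ∀ y ∈ C, ρ.map (fun z => x - y + z) = ρ

/-- `M` is the mean value for `|W|⁻¹ D` times the invariant probability measure of a coset of a closed subgroup
of the torus, a coset which is stable under `W`; if it is the whole torus, `M` is `haarMean`. -/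
def IsLaw (M : (UnitAddTorus (Fin r) → ℝ) → ℝ) : Prop :=
  ∃ (C : Set (UnitAddTorus (Fin r))) (ρ : Measure (UnitAddTorus (Fin r))), IsCosetMeasure C ρ ∧
    (∀ w ∈ W, ∀ x ∈ C, act w x ∈ C) ∧
    ∀ f, M f = (Nat.card W : ℝ)⁻¹ * ∫ x, f x * weylDensity Φ x ∂ρ

/-- `L`, given for `Re s > 1`, has a meromorphic continuation to a neighbourhood of `s₀`. -/
def ContinuesTo (L : ℂ → ℂ) (s₀ : ℂ) : Prop :=
  ∃ Λ : ℂ → ℂ, MeromorphicAt Λ s₀ ∧ ∀ᶠ s in 𝓝 s₀, 1 < s.re → Λ s = L s

/-- `L` has a meromorphic continuation to a neighbourhood of `s₀`, with a pole of order `m` at `s₀` (a zero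
of order `-m` if `m < 0`). -/
def HasPole (L : ℂ → ℂ) (s₀ : ℂ) (m : ℤ) : Prop :=
  ∃ Λ : ℂ → ℂ, MeromorphicAt Λ s₀ ∧ (∀ᶠ s in 𝓝 s₀, 1 < s.re → Λ s = L s) ∧
    meromorphicOrderAt Λ s₀ = ((-m : ℤ) : WithTop ℤ)

end

section

variable {K : Type} [Field K] [NumberField K]

/-- The average of `f` over the primes of `K` of norm at most `N`. -/
noncomputable def avg (f : HeightOneSpectrum (𝓞 K) → ℝ) (N : ℕ) : ℝ :=
  (∑ᶠ w : {w : HeightOneSpectrum (𝓞 K) // Ideal.absNorm w.asIdeal ≤ N}, f w.1) /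
    (Nat.card {w : HeightOneSpectrum (𝓞 K) // Ideal.absNorm w.asIdeal ≤ N} : ℝ)

/-- The Dirichlet average `∑ f(v) q_v^{-1-ε} / ∑ q_v^{-1-ε}` over the primes of `K`. -/
noncomputable def dirichletAvg (f : HeightOneSpectrum (𝓞 K) → ℝ) (ε : ℝ) : ℝ :=
  (∑' v : HeightOneSpectrum (𝓞 K), f v * (Ideal.absNorm v.asIdeal : ℝ) ^ (-(1 + ε))) /
    ∑' v : HeightOneSpectrum (𝓞 K), (Ideal.absNorm v.asIdeal : ℝ) ^ (-(1 + ε))

/-- `σ` is a Frobenius element at the prime `v` of `K`. -/
def IsFrobenius (v : HeightOneSpectrum (𝓞 K)) (σ : Gal(AlgebraicClosure K/K)) : Prop :=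
  ∃ Q : Ideal (𝓞 (AlgebraicClosure K)), Q.IsMaximal ∧
    Q.comap (algebraMap (𝓞 K) (𝓞 (AlgebraicClosure K))) = v.asIdeal ∧
    ∀ z : 𝓞 (AlgebraicClosure K), σ • z - z ^ Ideal.absNorm v.asIdeal ∈ Q

/-- `ψ` is an irreducible Artin representation: it is not zero, only the scalars commute with it, and it is trivial
on an open subgroup. -/
def IsIrredArtin {n : ℕ} (ψ : Gal(AlgebraicClosure K/K) →* Matrix.unitaryGroup (Fin n) ℂ) : Prop :=
  n ≠ 0 ∧ (∀ A : Matrix (Fin n) (Fin n) ℂ, (∀ g, (ψ g : Matrix (Fin n) (Fin n) ℂ) * A = A * ψ g) →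
    ∃ c : ℂ, A = c • (1 : Matrix (Fin n) (Fin n) ℂ)) ∧
  ∃ U : Subgroup Gal(AlgebraicClosure K/K), IsOpen (U : Set Gal(AlgebraicClosure K/K)) ∧
    ∀ u ∈ U, ψ u = 1

variable {r : ℕ} (W : Subgroup ((Fin r → ℤ) ≃ₗ[ℤ] (Fin r → ℤ))) (Φ : Finset (Fin r → ℤ))
  (θ : HeightOneSpectrum (𝓞 K) → UnitAddTorus (Fin r))
  (σ : HeightOneSpectrum (𝓞 K) → Gal(AlgebraicClosure K/K))

/-- `L_μ(s) = ∏_v ∏_{ν ∈ Wμ} (1 - e_ν(θ_v) q_v^{-s})⁻¹`. -/
noncomputable def LOrbit (μ : Fin r → ℤ) (s : ℂ) : ℂ :=
  ∏' v : HeightOneSpectrum (𝓞 K), (∏ᶠ ν ∈ orbit W μ, (1 - mFourier ν (θ v) *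
    (Ideal.absNorm v.asIdeal : ℂ) ^ (-s)))⁻¹

/-- `log L_μ(1 + ε) / log(1/ε)`, with `log L_μ(s) = -∑_v ∑_{ν ∈ Wμ} log(1 - e_ν(θ_v) q_v^{-s})` (principal
branch); if `L_μ` has a meromorphic continuation with a pole of order `m` at `s = 1`, this tends to `m`. -/
noncomputable def size (μ : Fin r → ℤ) (ε : ℝ) : ℂ :=
  (∑' v : HeightOneSpectrum (𝓞 K), ∑ᶠ ν ∈ orbit W μ,
    -Complex.log (1 - mFourier ν (θ v) * (Ideal.absNorm v.asIdeal : ℂ) ^ (-(1 + (ε : ℂ))))) /
    ((Real.log (1 / ε) : ℝ) : ℂ)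

/-- The twist `∏_v ∏_{ν ∈ Wμ} det(1 - e_ν(θ_v) q_v^{-s} ψ(σ_v))⁻¹` of `L_μ`. -/
noncomputable def LTwist {n : ℕ}
    (ψ : Gal(AlgebraicClosure K/K) →* Matrix.unitaryGroup (Fin n) ℂ) (μ : Fin r → ℤ) (s : ℂ) : ℂ :=
  ∏' v : HeightOneSpectrum (𝓞 K), (∏ᶠ ν ∈ orbit W μ,
    Matrix.det (1 - ((Ideal.absNorm v.asIdeal : ℂ) ^ (-s) * mFourier ν (θ v)) •
      (ψ (σ v) : Matrix (Fin n) (Fin n) ℂ)))⁻¹

/-- All `L_μ` and their twists by nontrivial irreducible Artin representations have meromorphic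
continuations to neighbourhoods of the points `1 + iτ`, with zeros and poles of any orders. -/
structure HasContinuations : Prop where
  orbit : ∀ (μ : Fin r → ℤ) (τ : ℝ), ContinuesTo (LOrbit W θ μ) (1 + τ * Complex.I)
  twist : ∀ (n : ℕ) (ψ : Gal(AlgebraicClosure K/K) →* Matrix.unitaryGroup (Fin n) ℂ),
    IsIrredArtin ψ → (∃ g, ψ g ≠ 1) → ∀ (μ : Fin r → ℤ) (τ : ℝ),
      ContinuesTo (LTwist W θ σ ψ μ) (1 + τ * Complex.I)

/-- For `μ ∈ F` the order of `L_μ` at `s = 1` is the one which belongs to the Sato-Tate law: there is a pole of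
order the mean value of `m_μ`. -/
def RightOrders (F : Finset (Fin r → ℤ)) : Prop :=
  ∀ μ ∈ F, ∃ m : ℤ, (m : ℝ) = haarMean W Φ (fun x => (orbitSum W μ x).re) ∧
    HasPole (LOrbit W θ μ) 1 m

/-- For no `μ ≠ 0` the Dirichlet average of `∑_{ν ∈ Wμ} |1 - e_ν(θ_v)|` tends to `0`. -/
def NotConcentrated : Prop :=
  ∀ μ : Fin r → ℤ, μ ≠ 0 → ¬ Tendsto (dirichletAvg fun v => deviation W μ (θ v)) (𝓝[>] 0) (𝓝 0)

/-- The classes are equidistributed, in the sense of Dirichlet density. -/
def DirichletEquidistributed : Prop :=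
  ∀ f : UnitAddTorus (Fin r) → ℝ, Continuous f → IsClassFunction W f →
    Tendsto (dirichletAvg fun v => f (θ v)) (𝓝[>] 0) (𝓝 (haarMean W Φ f))

/-- The classes are equidistributed, in the sense of natural density. -/
def Equidistributed : Prop :=
  ∀ f : UnitAddTorus (Fin r) → ℝ, Continuous f → IsClassFunction W f →
    Tendsto (avg fun v => f (θ v)) atTop (𝓝 (haarMean W Φ f))

/-- The classes are equidistributed jointly with the Frobenius elements in the finite quotients of the Galois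
group, in the sense of natural density. -/
def JointlyEquidistributed : Prop :=
  ∀ (U : Subgroup Gal(AlgebraicClosure K/K)) [U.Normal],
    IsOpen (U : Set Gal(AlgebraicClosure K/K)) →
    ∀ (f : UnitAddTorus (Fin r) → ℝ) (e : Gal(AlgebraicClosure K/K) ⧸ U → ℝ), Continuous f →
      IsClassFunction W f → (∀ g h, e (h * g * h⁻¹) = e g) →
      Tendsto (avg fun v => f (θ v) * e (QuotientGroup.mk (σ v))) atTop
        (𝓝 (haarMean W Φ f * ((Nat.card (Gal(AlgebraicClosure K/K) ⧸ U) : ℝ)⁻¹ * ∑ᶠ q, e q)))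

/-- `y_w` lies in the class of `θ_v` for all but finitely many primes `w` of `F` of residue degree one over
the prime `v` of `K` below `w`. -/
def BaseChange {F : Type} [Field F] [NumberField F] [Algebra K F]
    (y : HeightOneSpectrum (𝓞 F) → UnitAddTorus (Fin r)) : Prop :=
  ∃ S : Finset (HeightOneSpectrum (𝓞 F)), ∀ w, w ∉ S → ∀ v : HeightOneSpectrum (𝓞 K),
    w.asIdeal.comap (algebraMap (𝓞 K) (𝓞 F)) = v.asIdeal →
    Ideal.absNorm w.asIdeal = Ideal.absNorm v.asIdeal → ∃ g ∈ W, y w = act g (θ v)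

end

section Bridge

set_option linter.unusedSectionVars false

open Pool.Agent.Y798.FC Pool.Agent.TH553.ST Pool.Agent.TH553.RS Pool.Agent.W540.BE
  Pool.Agent.W401.Cheb

variable {r : ℕ}

theorem avg_eq {K : Type} [Field K] [NumberField K] (f : HeightOneSpectrum (𝓞 K) → ℝ) :
    avg f = mn f := by
  funext N
  have hs : ∀ v, v ∈ upto K N ↔ Ideal.absNorm v.asIdeal ≤ N := fun v => mem_upto
  let e : {v : HeightOneSpectrum (𝓞 K) // Ideal.absNorm v.asIdeal ≤ N} ≃ (upto K N) :=
    Equiv.subtypeEquivRight fun v => (hs v).symm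
  have hfin : Finite {v : HeightOneSpectrum (𝓞 K) // Ideal.absNorm v.asIdeal ≤ N} :=
    Finite.of_equiv _ e.symm
  unfold avg mn
  have h1 : (∑ᶠ v : {v : HeightOneSpectrum (𝓞 K) // Ideal.absNorm v.asIdeal ≤ N}, f v.1) =
      ∑ v ∈ upto K N, f v := by
    rw [← Finset.sum_coe_sort, ← finsum_eq_sum_of_fintype, ← finsum_comp_equiv e]
    rfl
  have h2 : Nat.card {v : HeightOneSpectrum (𝓞 K) // Ideal.absNorm v.asIdeal ≤ N} =
      (upto K N).card := by
    rw [Nat.card_congr e, Nat.card_eq_fintype_card, Fintype.card_coe]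
  rw [h1, h2, smul_eq_mul, div_eq_inv_mul]

theorem act_eq (w : (Fin r → ℤ) ≃ₗ[ℤ] (Fin r → ℤ)) (x : UnitAddTorus (Fin r)) :
    act w x = Pool.Agent.Y798.FC.act w x := by
  have hp : ∀ j : Fin r,
      @Pi.single (Fin r) (fun _ => ℤ) _ (fun a b => Classical.propDecidable (a = b)) j 1 =
        Pi.single j (1 : ℤ) := by
    intro j
    funext k
    by_cases hk : k = j
    · subst hk
      simp
    · simp [hk]
  funext j
  unfold act Pool.Agent.Y798.FC.act
  refine Finset.sum_congr rfl fun i _ => ?_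
  rw [hp]

variable {W : Subgroup ((Fin r → ℤ) ≃ₗ[ℤ] (Fin r → ℤ))} {Φ : Finset (Fin r → ℤ)}

theorem datum (h : IsWeylDatum W Φ) : Pool.Agent.Y798.FC.IsWeylDatum W Φ :=
  ⟨h.finite, h.ne_zero, fun w hw x => by rw [← act_eq]; exact h.invariant w hw x, h.mean⟩

theorem class_inv {f : UnitAddTorus (Fin r) → ℝ} (hf : IsClassFunction W f) :
    ∀ w ∈ W, ∀ x, f (Pool.Agent.Y798.FC.act w x) = f x := fun w hw x => by
  rw [← act_eq]
  exact hf w hw x

theorem inv_class {f : UnitAddTorus (Fin r) → ℝ}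
    (hf : ∀ w ∈ W, ∀ x, f (Pool.Agent.Y798.FC.act w x) = f x) : IsClassFunction W f :=
  fun w hw x => by
  rw [act_eq]
  exact hf w hw x

theorem haarMean_eq (f : UnitAddTorus (Fin r) → ℝ) : haarMean W Φ f = rm W Φ f := rfl

variable {K : Type} [Field K] [NumberField K]
  {θ : HeightOneSpectrum (𝓞 K) → UnitAddTorus (Fin r)}
  {σ : HeightOneSpectrum (𝓞 K) → Gal(AlgebraicClosure K/K)}

theorem wm_orbit (h : IsWeylDatum W Φ) (μ : Fin r → ℤ) :
    wm W Φ (msum W μ) = ((haarMean W Φ (fun x => (orbitSum W μ x).re) : ℝ) : ℂ) := by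
  have hW := h.finite
  have hd := continuous_dens Φ
  have hc := continuous_msum hW μ
  have h1 : (wm W Φ (msum W μ)).re = haarMean W Φ (fun x => (orbitSum W μ x).re) := by
    unfold wm
    have h2 : ∀ g : UnitAddTorus (Fin r) → ℂ, Continuous g →
        ((Nat.card W : ℂ)⁻¹ * ∫ x, g x * (dens Φ x : ℂ) ∂(vol (Fin r))).re =
          (Nat.card W : ℝ)⁻¹ * ∫ x, (g x).re * dens Φ x ∂(vol (Fin r)) := by
      intro g hg
      have h3 : ((Nat.card W : ℂ)⁻¹) = (((Nat.card W : ℝ)⁻¹ : ℝ) : ℂ) := by push_cast; rfl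
      rw [h3, Complex.re_ofReal_mul]
      congr 1
      have h4 := integral_re (𝕜 := ℂ) (μ := vol (Fin r)) (f := fun x => g x * (dens Φ x : ℂ))
        (Pool.Agent.Y139.ID.integrable_cont _ (by fun_prop))
      have h5 : RCLike.re (∫ x, g x * (dens Φ x : ℂ) ∂(vol (Fin r))) =
        (∫ x, g x * (dens Φ x : ℂ) ∂(vol (Fin r))).re := rfl
      rw [← h5, ← h4]
      refine integral_congr_ae (Eventually.of_forall fun x => ?_)
      change (g x * (dens Φ x : ℂ)).re = _
      rw [mul_comm, Complex.re_ofReal_mul, mul_comm]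
    rw [h2 _ hc]
    rfl
  have h2 : (wm W Φ (msum W μ)).im = 0 := by
    have h3 := wm_msum (datum h) μ
    obtain ⟨n, hn⟩ := dC_int Φ μ
    rw [hn] at h3
    have h4 : (stab W μ : ℝ) * (wm W Φ (msum W μ)).im = 0 := by
      have := congrArg Complex.im h3
      rw [← Complex.ofReal_natCast, Complex.im_ofReal_mul] at this
      simpa using this
    rcases mul_eq_zero.1 h4 with h5 | h5
    · have := stab_pos hW μ
      have h6 : stab W μ = 0 := by exact_mod_cast h5
      omega
    · exact h5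
  refine Complex.ext ?_ ?_
  · rw [h1, Complex.ofReal_re]
  · rw [h2, Complex.ofReal_im]

theorem orders_iff (h : IsWeylDatum W Φ) (F : Finset (Fin r → ℤ)) :
    RightOrders W Φ θ F ↔ OrdersOK W Φ θ F := by
  unfold RightOrders OrdersOK
  refine forall₂_congr fun μ _ => exists_congr fun m => ?_
  rw [wm_orbit h]
  refine and_congr ?_ Iff.rfl
  constructor
  · intro h1
    rw [← h1]
    simp
  · intro h1
    exact_mod_cast h1

theorem joint_iff : (∀ (U : Subgroup Gal(AlgebraicClosure K/K)) [U.Normal],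
    IsOpen (U : Set Gal(AlgebraicClosure K/K)) →
    ∀ f : UnitAddTorus (Fin r) → ℂ, Continuous f →
      (∀ w ∈ W, ∀ x, f (Pool.Agent.Y798.FC.act w x) = f x) →
      ∀ e : Gal(AlgebraicClosure K/K) ⧸ U → ℂ, (∀ g k, e (k * g * k⁻¹) = e g) →
      Tendsto (mn fun v => f (θ v) * e (QuotientGroup.mk (σ v))) atTop
        (𝓝 (wm W Φ f * ((Nat.card (Gal(AlgebraicClosure K/K) ⧸ U) : ℂ)⁻¹ * ∑ᶠ q, e q)))) →
    JointlyEquidistributed W Φ θ σ := by
  intro h U _ hU f e hf hfc he
  have hfin : Finite (Gal(AlgebraicClosure K/K) ⧸ U) := Subgroup.quotient_finite_of_isOpen _ hU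
  have h1 := h U hU (fun x => (f x : ℂ)) (Complex.continuous_ofReal.comp hf)
    (fun w hw x => by rw [class_inv hfc w hw]) (fun q => (e q : ℂ)) (fun g k => by rw [he])
  have h2 := (Complex.continuous_re.tendsto _).comp h1
  rw [wm_real] at h2
  have h3 : (((rm W Φ f : ℝ) : ℂ) * ((Nat.card (Gal(AlgebraicClosure K/K) ⧸ U) : ℂ)⁻¹ *
      ∑ᶠ q, (e q : ℂ))).re =
      haarMean W Φ f * ((Nat.card (Gal(AlgebraicClosure K/K) ⧸ U) : ℝ)⁻¹ * ∑ᶠ q, e q) := by
    letI := Fintype.ofFinite (Gal(AlgebraicClosure K/K) ⧸ U)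
    rw [finsum_eq_sum_of_fintype, finsum_eq_sum_of_fintype, ← Complex.ofReal_sum,
      ← Complex.ofReal_natCast, ← Complex.ofReal_inv, ← Complex.ofReal_mul, ← Complex.ofReal_mul,
      Complex.ofReal_re, haarMean_eq]
  rw [h3] at h2
  rw [avg_eq]
  refine h2.congr fun N => ?_
  simp only [Function.comp]
  rw [re_mn]
  congr 1
  funext v
  rw [← Complex.ofReal_mul, Complex.ofReal_re]

theorem deviation_eq (μ : Fin r → ℤ) (x : UnitAddTorus (Fin r)) :
    deviation W μ x = osum W μ x := rfl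

theorem joint_top (h : JointlyEquidistributed W Φ θ σ) : Equidistributed W Φ θ := by
  intro f hf hfc
  have h1 := h ⊤ isOpen_univ f (fun _ => 1) hf hfc (fun _ _ => rfl)
  have hsub : Subsingleton (Gal(AlgebraicClosure K/K) ⧸ (⊤ : Subgroup Gal(AlgebraicClosure K/K))) :=
    QuotientGroup.subsingleton_quotient_top
  have hfin : Finite (Gal(AlgebraicClosure K/K) ⧸ (⊤ : Subgroup Gal(AlgebraicClosure K/K))) :=
    inferInstance
  letI := Fintype.ofFinite
    (Gal(AlgebraicClosure K/K) ⧸ (⊤ : Subgroup Gal(AlgebraicClosure K/K)))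
  have h4 : ((Nat.card (Gal(AlgebraicClosure K/K) ⧸
      (⊤ : Subgroup Gal(AlgebraicClosure K/K))) : ℝ)⁻¹ * ∑ᶠ _ : (Gal(AlgebraicClosure K/K) ⧸
      (⊤ : Subgroup Gal(AlgebraicClosure K/K))), (1 : ℝ)) = 1 := by
    have h5 : (Nat.card (Gal(AlgebraicClosure K/K) ⧸
        (⊤ : Subgroup Gal(AlgebraicClosure K/K))) : ℝ) ≠ 0 := by
      have : Nat.card (Gal(AlgebraicClosure K/K) ⧸
        (⊤ : Subgroup Gal(AlgebraicClosure K/K))) ≠ 0 := Nat.card_pos.ne'
      exact_mod_cast this
    rw [finsum_eq_sum_of_fintype, Finset.sum_const, Finset.card_univ, nsmul_eq_mul, mul_one,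
      ← Nat.card_eq_fintype_card, inv_mul_cancel₀ h5]
  rw [h4, mul_one] at h1
  simpa only [mul_one] using h1

theorem nat_dir (h : Equidistributed W Φ θ) : DirichletEquidistributed W Φ θ := by
  intro f hf hfc
  have h1 := h f hf hfc
  rw [avg_eq] at h1
  obtain ⟨C, hC⟩ := isCompact_univ.exists_bound_of_continuousOn (f := f) hf.continuousOn
  have h2 := cE_of_mn_real (t := fun v => f (θ v)) (B := C) (fun v => hC _ (Set.mem_univ _))
    (c := haarMean W Φ f) (by
      refine ((Complex.continuous_ofReal.tendsto _).comp h1).congr fun n => ?_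
      simp only [Function.comp]
      unfold mn
      simp [smul_eq_mul])
  exact avg_of_cE (fun v => hC _ (Set.mem_univ _)) h2

theorem cE_of_dir (h : DirichletEquidistributed W Φ θ) {f : UnitAddTorus (Fin r) → ℝ}
    (hf : Continuous f) (hfc : IsClassFunction W f) :
    Tendsto (cE fun v => (f (θ v) : ℂ)) (𝓝[>] 0) (𝓝 ((haarMean W Φ f : ℝ) : ℂ)) := by
  have h1 : Tendsto (Pool.Agent.Y139.ID.avg fun v => f (θ v)) (𝓝[>] 0) (𝓝 (haarMean W Φ f)) :=
    h f hf hfc
  obtain ⟨C, hC⟩ := isCompact_univ.exists_bound_of_continuousOn (f := f) hf.continuousOn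
  have h2 := (Complex.continuous_ofReal.tendsto _).comp h1
  refine h2.congr' ?_
  filter_upwards [Pool.Agent.Y139.ID.good_ev (K := K)] with ε hε
  simp only [Function.comp]
  have hb : ∀ v, ‖((f (θ v) : ℝ) : ℂ)‖ ≤ C := fun v => by
    rw [Complex.norm_real]
    exact hC _ (Set.mem_univ _)
  refine Complex.ext ?_ ?_
  · rw [Complex.ofReal_re, cE_re hε hb]
    simp only [Complex.ofReal_re]
  · rw [Complex.ofReal_im, cE_im hε hb, Pool.Agent.Y139.ID.avg_eq]
    simp

theorem orders_of_dir (him : StmIm) (hd : IsWeylDatum W Φ) (h : DirichletEquidistributed W Φ θ)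
    (hcont : ∀ μ, ContAt (LM W θ μ) 1) (F : Finset (Fin r → ℤ)) : RightOrders W Φ θ F := by
  intro μ _
  have hWfin := hd.finite
  obtain ⟨m, h1, h2⟩ := lm_one him hWfin (hcont μ)
  refine ⟨m, ?_, h1⟩
  have hc := continuous_msum hWfin μ
  have h3 := cE_of_dir h (f := fun x => (orbitSum W μ x).re) (Complex.continuous_re.comp hc)
    (inv_class fun w hw x => by
      change (msum W μ _).re = (msum W μ _).re
      rw [msum_act hWfin hw])
  have h4 := (Complex.continuous_re.tendsto _).comp h2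
  have h5 := (Complex.continuous_re.tendsto _).comp h3
  obtain ⟨C, hC⟩ := isCompact_univ.exists_bound_of_continuousOn (f := msum W μ) hc.continuousOn
  rw [Complex.ofReal_re] at h5
  have h6 : Tendsto (fun ε => (cE (fun v => msum W μ (θ v)) ε).re) (𝓝[>] 0)
      (𝓝 (haarMean W Φ fun x => (orbitSum W μ x).re)) := by
    refine h5.congr' ?_
    filter_upwards [Pool.Agent.Y139.ID.good_ev (K := K)] with ε hε
    simp only [Function.comp]
    rw [cE_re hε (B := C) (fun v => by
      rw [Complex.norm_real]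
      exact (Complex.abs_re_le_norm _).trans (hC _ (Set.mem_univ _))),
      cE_re hε (B := C) fun v => hC _ (Set.mem_univ _)]
    simp only [Complex.ofReal_re]
    rfl
  have h7 := tendsto_nhds_unique h4 h6
  rw [Complex.intCast_re] at h7
  exact h7

theorem generic_of_dir (hd : IsWeylDatum W Φ) (h : DirichletEquidistributed W Φ θ) :
    NotConcentrated W θ := by
  intro μ hμ hcon
  have hΦ := datum hd
  have hWfin := hd.finite
  have hcard : (0 : ℝ) < Nat.card W := by exact_mod_cast Nat.card_pos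
  have hc := continuous_osum hWfin μ
  have hdc := continuous_dens Φ
  have h3 := h (deviation W μ) hc (inv_class fun w hw x => osum_act hWfin hw μ x)
  have h4 := tendsto_nhds_unique h3 hcon
  have hnn : ∀ x, 0 ≤ osum W μ x * dens Φ x := fun x => by
    rw [osum_eq hWfin]
    exact mul_nonneg (Finset.sum_nonneg fun _ _ => norm_nonneg _) (dens_nonneg _ _)
  have h5 : ∫ x, osum W μ x * dens Φ x ∂(vol (Fin r)) = 0 := by
    rcases mul_eq_zero.1 h4 with h6 | h6
    · exact absurd h6 (inv_ne_zero hcard.ne')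
    · exact h6
  have h6 := (integral_eq_zero_iff_of_nonneg (f := fun x => osum W μ x * dens Φ x) hnn
    (Pool.Agent.Y139.ID.integrable_cont_real _ (by fun_prop))).1 h5
  have h7 : ∀ᵐ x ∂(vol (Fin r)), mFourier μ x ≠ 1 := by
    rw [ae_iff]
    simpa using null_root hμ
  have h8 : ∀ᵐ _x ∂(vol (Fin r)), False := by
    filter_upwards [h6, h7, null_dens hΦ.ne_zero] with x k1 k2 k3
    have k4 : osum W μ x * dens Φ x = 0 := k1
    rcases mul_eq_zero.1 k4 with k5 | k5
    · rw [osum_eq hWfin] at k5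
      have k6 := (Finset.sum_eq_zero_iff_of_nonneg fun _ _ => norm_nonneg _).1 k5 μ
        ((mem_orbF hWfin).2 ⟨1, W.one_mem, rfl⟩)
      exact k2 (sub_eq_zero.1 (norm_eq_zero.1 k6)).symm
    · exact k3.ne' k5
  obtain ⟨x, hx⟩ := h8.exists
  exact hx

theorem bc_self : BaseChange (F := K) W θ θ := by
  refine ⟨∅, fun w _ v h1 _ => ⟨1, W.one_mem, ?_⟩⟩
  have h3 : ∀ φ : 𝓞 K →+* 𝓞 K, (∀ z, ((φ z : 𝓞 K) : K) = (z : K)) →
      Ideal.comap φ w.asIdeal = w.asIdeal := by
    intro φ hφ
    ext z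
    rw [Ideal.mem_comap, RingOfIntegers.ext (hφ z)]
  have h2 : w = v := by
    apply HeightOneSpectrum.ext
    rw [← h1, h3 _ fun z => rfl]
  rw [act_eq, act_one, h2]

/-- the coset of an admissible pair -/
theorem law_of_adm {Γ : AddSubgroup (Fin r → ℤ)} {a : UnitAddTorus (Fin r)}
    (h : ∀ w ∈ W, ∀ γ ∈ Γ, w γ ∈ Γ ∧ mFourier (w γ) a = mFourier γ a) :
    ∃ (M : (UnitAddTorus (Fin r) → ℝ) → ℝ) (σ : Measure (UnitAddTorus (Fin r))), IsLaw W Φ M ∧
      Pool.Agent.Y139.ID.IsHaarOn (Pool.Agent.Y139.ID.annih Γ) σ ∧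
      ∀ f : UnitAddTorus (Fin r) → ℝ, Continuous f → cosetMean W Φ σ a f = M f := by
  obtain ⟨σ, hσ, -⟩ := Pool.Agent.Y139.ID.exists_haarOn (Pool.Agent.Y139.ID.annih Γ)
    (Pool.Agent.Y139.ID.isClosed_annih Γ)
  have hm : Measurable fun x : UnitAddTorus (Fin r) => a + x :=
    (continuous_const.add continuous_id).measurable
  set C : Set (UnitAddTorus (Fin r)) := {x | x - a ∈ Pool.Agent.Y139.ID.annih Γ} with hC
  have hCcl : IsClosed C :=
    (Pool.Agent.Y139.ID.isClosed_annih Γ).preimage (continuous_id.sub continuous_const)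
  refine ⟨fun f => (Nat.card W : ℝ)⁻¹ * ∫ x, f x * weylDensity Φ x ∂(σ.map fun x => a + x), σ,
    ⟨C, σ.map fun x => a + x, ⟨⟨a, ?_⟩, hCcl, ?_, ?_, ?_, ?_⟩, ?_, fun f => rfl⟩, hσ, ?_⟩
  · rw [hC]
    simp only [Set.mem_ofPred_eq, sub_self]
    exact zero_mem _
  · intro x hx y hy z hz
    rw [hC] at *
    simp only [Set.mem_ofPred_eq] at *
    have e : x - y + z - a = (x - a) - (y - a) + (z - a) := by abel
    rw [e]
    exact add_mem (sub_mem hx hy) hz
  · have := hσ.isProb
    exact Measure.isProbabilityMeasure_map hm.aemeasurable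
  · rw [Measure.map_apply hm hCcl.measurableSet.compl]
    have e : (fun x : UnitAddTorus (Fin r) => a + x) ⁻¹' Cᶜ =
        ((Pool.Agent.Y139.ID.annih Γ : Set (UnitAddTorus (Fin r))))ᶜ := by
      ext x
      rw [hC]
      simp
    rw [e]
    exact hσ.supp
  · intro x hx y hy
    have hxy : x - y ∈ Pool.Agent.Y139.ID.annih Γ := by
      have e : x - y = (x - a) - (y - a) := by abel
      rw [e]
      exact sub_mem hx hy
    have hm2 : Measurable fun z : UnitAddTorus (Fin r) => x - y + z :=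
      (continuous_const.add continuous_id).measurable
    rw [Measure.map_map hm2 hm]
    have e : (fun z : UnitAddTorus (Fin r) => x - y + z) ∘ (fun x => a + x) =
        (fun x => a + x) ∘ fun z => x - y + z := by
      funext z
      simp only [Function.comp]
      abel
    rw [e, ← Measure.map_map hm hm2, hσ.inv _ hxy]
  · intro w hw x hx
    rw [hC] at *
    simp only [Set.mem_ofPred_eq] at *
    refine Pool.Agent.Y139.ID.mem_annih.2 fun γ hγ => ?_
    have h1 := Pool.Agent.Y139.ID.mem_annih.1 hx (w γ) (h w hw γ hγ).1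
    rw [sub_eq_add_neg, Pool.Agent.Y139.ID.mFourier_apply_add,
      Pool.Agent.Y139.ID.mFourier_apply_neg, (h w hw γ hγ).2] at h1
    rw [sub_eq_add_neg, Pool.Agent.Y139.ID.mFourier_apply_add,
      Pool.Agent.Y139.ID.mFourier_apply_neg, act_eq, mF_act]
    exact h1
  · intro f hf
    unfold cosetMean
    have hdc := continuous_dens Φ
    have hdc' : Continuous (weylDensity Φ) := hdc
    simp only
    rw [integral_map hm.aemeasurable (Continuous.aestronglyMeasurable (by fun_prop))]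
    rfl

/-- the laws in the two senses -/
theorem two_laws (hd : IsWeylDatum W Φ) {ρ : Measure (UnitAddTorus (Fin r))}
    {Γ : AddSubgroup (Fin r → ℤ)} {a : UnitAddTorus (Fin r)} (h : CL W Φ θ ρ Γ a)
    {σ : Measure (UnitAddTorus (Fin r))}
    (hσ : Pool.Agent.Y139.ID.IsHaarOn (Pool.Agent.Y139.ID.annih Γ) σ)
    {f : UnitAddTorus (Fin r) → ℝ} (hf : Continuous f) (hfc : IsClassFunction W f) :
    Tendsto (dirichletAvg fun v => f (θ v)) (𝓝[>] 0) (𝓝 (cosetMean W Φ σ a f)) ∧
    ((∀ μ (τ : ℝ), ContAt (LM W θ μ) (1 + τ * Complex.I)) →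
      Tendsto (avg fun v => f (θ v)) atTop (𝓝 (cosetMean W Φ σ a f))) := by
  have hWfin := hd.finite
  have hfin := h.fin
  have hfC : Continuous fun x => (f x : ℂ) := Complex.continuous_ofReal.comp hf
  have hfW : ∀ w ∈ W, ∀ x, ((f (Pool.Agent.Y798.FC.act w x) : ℝ) : ℂ) = ((f x : ℝ) : ℂ) :=
    fun w hw x => by rw [class_inv hfc w hw]
  obtain ⟨C, hC⟩ := isCompact_univ.exists_bound_of_continuousOn (f := f) hf.continuousOn
  constructor
  · have h1 := h.dir _ hfC hfW
    rw [cosetMean_eq h.law hσ hf] at h1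
    exact avg_of_cE (fun v => hC _ (Set.mem_univ _)) h1
  · intro hcont
    have hn := h.nat hd.semisimple hcont
    choose c hc using h.int
    have h1 := nat_law hWfin (c := c) (fun μ => by rw [← hc]; exact hn μ) hc hfC hfW
    rw [cosetMean_eq h.law hσ hf] at h1
    have h2 := (Complex.continuous_re.tendsto _).comp h1
    rw [Complex.ofReal_re] at h2
    rw [avg_eq]
    refine h2.congr fun N => ?_
    simp only [Function.comp]
    rw [re_mn]
    simp only [Complex.ofReal_re]

end Bridge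

open Pool.Agent.Y798.FC Pool.Agent.TH553.ST in
/-- **The Sato-Tate law from finitely many orders at `s = 1`.**  For every Weyl datum `(W, Φ)` there is a finite
set `F` of characters of the torus with the following properties.

1. Nothing is supposed: for continuous class functions `f_1, …, f_m` and `δ > 0` there are `η > 0` and `R`,
   independent of the number field `K` and of the classes `θ_v`, such that for all small `ε`

   * for some `μ` with coordinates at most `R` in absolute value the number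
     `x_μ(ε) = log L_μ(1 + ε) / log(1/ε)` has a distance greater than `η` from the integers, or
   * for some `μ ∈ F` its distance from the mean value of `m_μ` on the group is greater than `η`, or
   * the Dirichlet averages of the `f_i(θ_v)` at `ε` are, up to `δ`, the mean values of the `f_i` for
     `|W|⁻¹ D` times the invariant measure of a coset of a closed subgroup which is stable under `W`.

2. If the functions `L_μ` have meromorphic continuations to neighbourhoods of `s = 1`, with zeros and poles of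
   any orders, and `L_μ` has the right order at `s = 1` for `μ ∈ F`, then the classes have a law in the sense
   of Dirichlet density, and it is one of the laws in 1; it is their law in the sense of natural density if
   the `L_μ` have meromorphic continuations to neighbourhoods of the points `1 + iτ`.

3. If the functions `L_μ` and their twists by nontrivial irreducible Artin representations have meromorphic
   continuations to neighbourhoods of the points `1 + iτ`, with zeros and poles of any orders, the following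
   are equivalent:

   * `L_μ` has the right order at `s = 1` for `μ ∈ F`, and the classes are not concentrated;
   * the classes are equidistributed in the sense of Dirichlet density;
   * the classes are equidistributed in the sense of natural density;
   * the classes are equidistributed jointly with the Frobenius elements in all finite quotients of the
     Galois group;
   * the classes are equidistributed over all finite extensions of `K`. -/
theorem result {r : ℕ} (W : Subgroup ((Fin r → ℤ) ≃ₗ[ℤ] (Fin r → ℤ))) (Φ : Finset (Fin r → ℤ))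
    (hWΦ : IsWeylDatum W Φ) :
    ∃ F : Finset (Fin r → ℤ),
      (∀ (m : ℕ) (f : Fin m → UnitAddTorus (Fin r) → ℝ), (∀ i, Continuous (f i)) →
        (∀ i, IsClassFunction W (f i)) → ∀ δ : ℝ, 0 < δ →
        ∃ (η : ℝ) (R : ℕ), 0 < η ∧ ∀ (K : Type) [Field K] [NumberField K]
          (θ : HeightOneSpectrum (𝓞 K) → UnitAddTorus (Fin r)), ∀ᶠ ε : ℝ in 𝓝[>] 0,
            (∃ μ : Fin r → ℤ, (∀ j, |μ j| ≤ R) ∧ ∀ n : ℤ, η < ‖size W θ μ ε - n‖) ∨
            (∃ μ ∈ F,
              η < ‖size W θ μ ε - (haarMean W Φ (fun x => (orbitSum W μ x).re) : ℝ)‖) ∨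
            ∃ M : (UnitAddTorus (Fin r) → ℝ) → ℝ, IsLaw W Φ M ∧
              ∀ i, |dirichletAvg (fun v => f i (θ v)) ε - M (f i)| ≤ δ) ∧
      (∀ (K : Type) [Field K] [NumberField K]
        (θ : HeightOneSpectrum (𝓞 K) → UnitAddTorus (Fin r)),
        (∀ μ, ContinuesTo (LOrbit W θ μ) 1) → RightOrders W Φ θ F →
        ∃ M : (UnitAddTorus (Fin r) → ℝ) → ℝ, IsLaw W Φ M ∧
          ∀ f : UnitAddTorus (Fin r) → ℝ, Continuous f → IsClassFunction W f →
            Tendsto (dirichletAvg fun v => f (θ v)) (𝓝[>] 0) (𝓝 (M f)) ∧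
            ((∀ (μ : Fin r → ℤ) (τ : ℝ), ContinuesTo (LOrbit W θ μ) (1 + τ * Complex.I)) →
              Tendsto (avg fun v => f (θ v)) atTop (𝓝 (M f)))) ∧
      ∀ (K : Type) [Field K] [NumberField K]
        (θ : HeightOneSpectrum (𝓞 K) → UnitAddTorus (Fin r))
        (σ : HeightOneSpectrum (𝓞 K) → Gal(AlgebraicClosure K/K)), (∀ v, IsFrobenius v (σ v)) →
        HasContinuations W θ σ →
        [RightOrders W Φ θ F ∧ NotConcentrated W θ,
          DirichletEquidistributed W Φ θ,
          Equidistributed W Φ θ,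
          JointlyEquidistributed W Φ θ σ,
          ∀ (L : Type) [Field L] [NumberField L] [Algebra K L]
            (y : HeightOneSpectrum (𝓞 L) → UnitAddTorus (Fin r)), BaseChange W θ y →
            Equidistributed W Φ y].TFAE := by
  have hdiv : StmDiv := Pool.Agent.Y495.FC.Div.t
  have hstr : StmStr := Pool.Agent.H70FC.t
  have him : StmIm := Pool.Agent.Y681.FC.t
  have htaub : StmTaub := Pool.Agent.Y37.FC.t_Taub
  have hfix : StmFix := Pool.Agent.Y188.FC.t
  have hbc : StmBC := Pool.Agent.Y824.FC.t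
  have hmix : StmMix := Pool.Agent.Y794.FC.t
  have horb : StmOrb := Pool.Agent.Y484.FC2.t
  have hfun : StmFun := Pool.Agent.Y839.FC2.t
  have hfv : StmFV := Pool.Agent.Y448.FC2.t
  have hblk : StmBlk := Pool.Agent.Y798.FC.Blk.t
  have htr : StmTrans := Pool.Agent.Y689.FC2.t
  have hlog : StmLog := Pool.Agent.Y125.FC3.Log.t
  have hΦ := datum hWΦ
  obtain ⟨F0, hF0⟩ := struct_law hdiv hstr hΦ
  obtain ⟨F1, hF1⟩ := mlaw hdiv hstr him htaub hΦ
  classical
  have hmono : ∀ {K : Type} [Field K] [NumberField K]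
      {θ : HeightOneSpectrum (𝓞 K) → UnitAddTorus (Fin r)},
      RightOrders W Φ θ (F0 ∪ F1) → OrdersOK W Φ θ F1 := fun h =>
    (orders_iff hWΦ F1).1 fun μ hμ => h μ (Finset.mem_union_right _ hμ)
  refine ⟨F0 ∪ F1, fun m f hf hfc δ hδ => ?_, fun K _ _ θ hcont hord => ?_,
    fun K _ _ θ σ hσ hcont => ?_⟩
  · obtain ⟨η, R, hη, hmain⟩ := finite_level2 hlog hΦ hF0 f hf (fun i => class_inv (hfc i)) hδ
    refine ⟨η, R, hη, fun K _ _ θ => ?_⟩
    filter_upwards [hmain K θ] with ε hε
    rcases hε with h | ⟨μ, hμ, h⟩ | ⟨Γ, a, hadm, h⟩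
    · exact Or.inl h
    · right
      left
      refine ⟨μ, Finset.mem_union_left _ hμ, ?_⟩
      rw [wm_orbit hWΦ] at h
      exact h
    · right
      right
      obtain ⟨M, σ, hM, hσ, hMf⟩ := law_of_adm (Φ := Φ) hadm.2
      refine ⟨M, hM, fun i => ?_⟩
      rw [← hMf (f i) (hf i)]
      exact h σ hσ i
  · obtain ⟨ρ, Γ, a, h⟩ := hF1 K θ hcont (hmono hord)
    obtain ⟨M, σ, hM, hσ, hMf⟩ := law_of_adm (Φ := Φ) h.stable
    refine ⟨M, hM, fun f hf hfc => ?_⟩
    rw [← hMf f hf]
    exact two_laws hWΦ h hσ hf hfc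
  have hc1 : ∀ μ, ContAt (LM W θ μ) 1 := fun μ => by
    have := hcont.orbit μ 0
    rw [one_add_zero] at this
    exact this
  have hcT : ContT W θ σ := fun n ψ hn hs hnt hU μ τ => hcont.twist n ψ ⟨hn, hs, hU⟩ hnt μ τ
  have hjoint : RightOrders W Φ θ (F0 ∪ F1) ∧ NotConcentrated W θ → JointLaw W Φ θ σ := by
    rintro ⟨h1, h2⟩
    obtain ⟨ρ, Γ, a, h⟩ := hF1 K θ hc1 (hmono h1)
    exact joint_of hfix hfv horb hfun htr hblk hmix hΦ hWΦ.semisimple hσ h (h.bot hΦ h2)
      hcont.orbit hcT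
  tfae_have 1 → 4 := fun h => joint_iff (hjoint h)
  tfae_have 4 → 3 := joint_top
  tfae_have 3 → 2 := nat_dir
  tfae_have 2 → 1 := fun h => ⟨orders_of_dir him hWΦ h hc1 (F0 ∪ F1), generic_of_dir hWΦ h⟩
  tfae_have 1 → 5 := by
    intro h L _ _ _ y hy f hf hfc
    have h1 := ext_of_joint hbc hΦ hσ (hjoint h)
    rw [avg_eq]
    refine h1 L y ?_ f hf (class_inv hfc)
    obtain ⟨S, hS⟩ := hy
    refine ⟨S, fun w hw v k1 k2 => ?_⟩
    obtain ⟨g, hg, h2⟩ := hS w hw v k1 k2
    exact ⟨g, hg, by rw [h2, act_eq]⟩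
  tfae_have 5 → 3 := fun h => h K θ bc_self
  tfae_finish

end Pool.Agent.Results.MP_4c4ce6_nt.FiniteOrderCriterion
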