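import Pool.Agent.Y798.RG.Main

/-!
# Rigidity of the laws of families with Sato-Tate group `SU(2)`

`K` is an arbitrary number field and `α_v`, `α_v⁻¹` are the eigenvalues of the element `x_v` of `SU(2)` for the
primes `v` of `K` (for `H¹` of an elliptic curve without complex multiplication: the normalised Frobenius
eigenvalues; any complex number of absolute value one at the exceptional primes), so that
`2 Re α_v = 2 cos θ_v` is the trace of `x_v`.

The criterion of Serre for the Sato-Tate law asks for the continuation of all symmetric power `L`-functions to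
`Re s ≥ 1` without zeros and poles.  Here they only have local meromorphic continuations, with zeros and
poles of any orders.  The theorem says that the law of the traces is then rigid: in the sense of
Dirichlet density there are only the finite laws and the laws with the density
`(1 + e cos m θ) / π`, `e = 0, 1, -1`, and the laws which are half uniform and half uniform on the
angles `θ` with `e^{imθ} = e^{iφ}`, `φ = 0, π`.  If `L(Sym², s)` has neither a zero nor a pole at `s = 1`, then
only the Sato-Tate law, the law of families with complex multiplication (with a pole of `L(Sym⁴, s)`)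
and the finite laws remain, and the Sato-Tate law holds in the sense of natural density.
No information on the zeros and poles of the other symmetric powers is used.

The proof uses that the orders are integers: the vectors `α^a`, `a ∈ ℤ`, generate a lattice spanned by
roots in the Hilbert space of the law, and the translates of weak limits of its elements are
orthonormal bases.
-/

set_option autoImplicit false

namespace Pool.Agent.Results.MP_4c4ce6_nt.SymmetricPowerRigidity

open NumberField IsDedekindDomain Filter Topology MeasureTheory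

section

variable {K : Type} [Field K] [NumberField K]

/-- The average of `φ` over the primes of `K` of norm at most `N`. -/
noncomputable def avg (φ : HeightOneSpectrum (𝓞 K) → ℝ) (N : ℕ) : ℝ :=
  (∑ᶠ v : {v : HeightOneSpectrum (𝓞 K) // Ideal.absNorm v.asIdeal ≤ N}, φ v.1) /
    (Nat.card {v : HeightOneSpectrum (𝓞 K) // Ideal.absNorm v.asIdeal ≤ N} : ℝ)

/-- The Dirichlet average `∑ φ(v) q_v^{-1-ε} / ∑ q_v^{-1-ε}` over the primes of `K`. -/
noncomputable def dirichletAvg (φ : HeightOneSpectrum (𝓞 K) → ℝ) (ε : ℝ) : ℝ :=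
  (∑' v, φ v * (Ideal.absNorm v.asIdeal : ℝ) ^ (-(1 + ε))) /
    ∑' v : HeightOneSpectrum (𝓞 K), (Ideal.absNorm v.asIdeal : ℝ) ^ (-(1 + ε))

/-- The Euler product `L(Sym^k, s) = ∏_v ∏_{j=0}^k (1 - α_v^{k-2j} q_v^{-s})⁻¹`. -/
noncomputable def LSym (α : HeightOneSpectrum (𝓞 K) → ℂ) (k : ℕ) (s : ℂ) : ℂ :=
  ∏' v, (∏ j ∈ Finset.range (k + 1),
    (1 - α v ^ ((k : ℤ) - 2 * j) * (Ideal.absNorm v.asIdeal : ℂ) ^ (-s)))⁻¹

/-- `Λ` is a meromorphic continuation of `L(Sym^k, s)` to a neighbourhood of `1 + iτ`. -/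
def IsContinuation (α : HeightOneSpectrum (𝓞 K) → ℂ) (k : ℕ) (τ : ℝ) (Λ : ℂ → ℂ) : Prop :=
  MeromorphicAt Λ (1 + τ * Complex.I) ∧
    ∀ᶠ s in 𝓝 ((1 : ℂ) + τ * Complex.I), (1 : ℝ) < s.re → Λ s = LSym α k s

/-- The traces `2 Re α_v` have the law `L` in the sense of Dirichlet density. -/
def HasDirichletLaw (α : HeightOneSpectrum (𝓞 K) → ℂ) (L : (ℝ → ℝ) → ℝ) : Prop :=
  ∀ f : ℝ → ℝ, Continuous f →
    Tendsto (dirichletAvg fun v => f (2 * (α v).re)) (𝓝[>] 0) (𝓝 (L f))

/-- The Sato-Tate law in the sense of natural density. -/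
def IsSatoTate (α : HeightOneSpectrum (𝓞 K) → ℂ) : Prop :=
  ∀ f : ℝ → ℝ, Continuous f → Tendsto (avg fun v => f (2 * (α v).re)) atTop
    (𝓝 (2 / Real.pi * ∫ θ in (0 : ℝ)..Real.pi, f (2 * Real.cos θ) * Real.sin θ ^ 2))

/-- Finite type: for some `N > 0` the Dirichlet average of `|α_v^N - 1|²` tends to `0`. -/
def IsFiniteType (α : HeightOneSpectrum (𝓞 K) → ℂ) : Prop :=
  ∃ N : ℕ, 0 < N ∧ Tendsto (dirichletAvg fun v => ‖α v ^ N - 1‖ ^ 2) (𝓝[>] 0) (𝓝 0)

/-- The law with the density `(1 + e cos m θ) / π` in the angle `θ ∈ [0, π]`; for `e = 0` this is the uniform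
law, for `m = 2`, `e = -1` the Sato-Tate law. -/
noncomputable def cosineLaw (m : ℕ) (e : ℝ) (f : ℝ → ℝ) : ℝ :=
  Real.pi⁻¹ * ∫ θ in (0 : ℝ)..Real.pi, f (2 * Real.cos θ) * (1 + e * Real.cos (m * θ))

/-- Half of the uniform law plus half of the uniform law on the `m` angles `(2πj + φ) / m`; for `m = 2`,
`φ = π` this is the law of families with complex multiplication. -/
noncomputable def mixedLaw (m : ℕ) (φ : ℝ) (f : ℝ → ℝ) : ℝ :=
  (2 * Real.pi)⁻¹ * (∫ θ in (0 : ℝ)..Real.pi, f (2 * Real.cos θ)) +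
    (2 * m : ℝ)⁻¹ * ∑ j ∈ Finset.range m, f (2 * Real.cos ((2 * Real.pi * j + φ) / m))

end

section Bridge

set_option linter.unusedSectionVars false

open Pool.Agent.W540.BE Pool.Agent.W353.SP Pool.Agent.Y798.RG

variable {K : Type} [Field K] [NumberField K] {α : HeightOneSpectrum (𝓞 K) → ℂ}

theorem dirichlet_of {φ : HeightOneSpectrum (𝓞 K) → ℝ} {m : ℝ} (h : D φ m) :
    Tendsto (dirichletAvg φ) (𝓝[>] 0) (𝓝 m) := by
  have h1 := h.2.div (mnD K).one one_ne_zero
  rw [div_one] at h1
  refine h1.congr' ?_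
  filter_upwards [Pool.Agent.H341R2.lam_tendsto.eventually_gt_atTop 0] with ε hε
  simp only [Pi.div_apply]
  unfold ED dirichletAvg EP
  rw [div_div_div_cancel_right₀ hε.ne']
  congr 1
  refine tsum_congr fun v => ?_
  rw [one_mul]
  rfl

theorem avg_of {φ : HeightOneSpectrum (𝓞 K) → ℝ} {m : ℝ} (h : Hs atTop (EN K) φ m) :
    Tendsto (avg φ) atTop (𝓝 m) := by
  have h1 := h.2.div (mnN K).one one_ne_zero
  rw [div_one] at h1
  refine h1.congr' ?_
  filter_upwards [eventually_ge_atTop 2] with N hN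
  have hs : ∀ v, v ∈ upto K N ↔ Ideal.absNorm v.asIdeal ≤ N := fun v => mem_upto
  let e : {v : HeightOneSpectrum (𝓞 K) // Ideal.absNorm v.asIdeal ≤ N} ≃ (upto K N) :=
    Equiv.subtypeEquivRight fun v => (hs v).symm
  have hfin : Finite {v : HeightOneSpectrum (𝓞 K) // Ideal.absNorm v.asIdeal ≤ N} :=
    Finite.of_equiv _ e.symm
  have e1 : (∑ᶠ v : {v : HeightOneSpectrum (𝓞 K) // Ideal.absNorm v.asIdeal ≤ N}, φ v.1) =
      ∑ v ∈ upto K N, φ v := by
    rw [← Finset.sum_coe_sort, ← finsum_eq_sum_of_fintype, ← finsum_comp_equiv e]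
    rfl
  have e2 : Nat.card {v : HeightOneSpectrum (𝓞 K) // Ideal.absNorm v.asIdeal ≤ N} =
      (upto K N).card := by
    rw [Nat.card_congr e, Nat.card_eq_fintype_card, Fintype.card_coe]
  have hp : (Nat.primeCounting N : ℝ) ≠ 0 := by
    have : Nat.primeCounting N ≠ 0 := by
      rw [Ne, Nat.primeCounting_eq_zero_iff]
      omega
    exact_mod_cast this
  simp only [Pi.div_apply]
  unfold EN avg
  rw [e1, e2, div_div_div_cancel_right₀ hp, Finset.sum_const, nsmul_eq_mul, mul_one]

theorem cosineLaw_eq (m : ℕ) (e : ℝ) : cosineLaw m e = Ltr m e := rfl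

theorem mixedLaw_eq (m : ℕ) (φ : ℝ) : mixedLaw m φ = Lmx m φ := by
  funext f
  unfold mixedLaw Lmx Ltr Lth Lpt ang
  have e : (fun θ => f (2 * Real.cos θ) * (1 + 0 * Real.cos ((1 : ℕ) * θ))) =
      fun θ => f (2 * Real.cos θ) := by
    funext θ
    ring
  rw [e, mul_inv, mul_inv]
  ring

theorem satoTate_eq (f : ℝ → ℝ) :
    2 / Real.pi * (∫ θ in (0 : ℝ)..Real.pi, f (2 * Real.cos θ) * Real.sin θ ^ 2) =
      Ltr 2 (-1) f := by
  unfold Ltr Lth
  have e : (fun θ : ℝ => f (2 * Real.cos θ) * (1 + -1 * Real.cos ((2 : ℕ) * θ))) =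
      fun θ => 2 * (f (2 * Real.cos θ) * Real.sin θ ^ 2) := by
    funext θ
    have h2 : Real.cos (((2 : ℕ) : ℝ) * θ) = 1 - 2 * Real.sin θ ^ 2 := by
      push_cast
      rw [Real.cos_two_mul, Real.cos_sq']
      ring
    rw [h2]
    ring
  rw [e, intervalIntegral.integral_const_mul]
  ring

end Bridge

open Pool.Agent.W353.SP Pool.Agent.Y798.RG in
/-- **Rigidity of the laws of families with Sato-Tate group `SU(2)`.**  Let `K` be a number field and `α_v`
complex numbers of absolute value one for the primes `v` of `K`, and suppose that for all `k ≥ 1` there is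
a meromorphic continuation of `L(Sym^k, s)` to a neighbourhood of `s = 1`.

I.  The `α_v` are of finite type, or there are `m > 0` and `e ∈ {0, 1, -1}` such that the traces
`2 Re α_v` have the law `cosineLaw m e`, or there are `m > 0` and `φ ∈ {0, π}` such that they have the law
`mixedLaw m φ`, in the sense of Dirichlet density.

II.  Suppose that for all `k ≥ 1` and all real `τ` there is a meromorphic continuation of `L(Sym^k, s)` to a
neighbourhood of `1 + iτ`, and that `L(Sym², s)` has the order `0` at `s = 1`.  Then the `α_v` are of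
finite type, or the Sato-Tate law holds in the sense of natural density, or `L(Sym⁴, s)` has a simple pole at `s = 1`
and the traces have the law `mixedLaw 2 π` of families with complex multiplication. -/
theorem result (K : Type) [Field K] [NumberField K] (α : HeightOneSpectrum (𝓞 K) → ℂ)
    (hα : ∀ v, ‖α v‖ = 1) (hcont : ∀ k : ℕ, 1 ≤ k → ∃ Λ, IsContinuation α k 0 Λ) :
    (IsFiniteType α ∨
      (∃ m : ℕ, 0 < m ∧ ∃ e : ℝ, (e = 0 ∨ e = 1 ∨ e = -1) ∧ HasDirichletLaw α (cosineLaw m e)) ∨
      (∃ m : ℕ, 0 < m ∧ ∃ φ : ℝ, (φ = 0 ∨ φ = Real.pi) ∧ HasDirichletLaw α (mixedLaw m φ))) ∧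
    ((∀ k : ℕ, 1 ≤ k → ∀ τ : ℝ, ∃ Λ, IsContinuation α k τ Λ) →
      (∃ Λ, IsContinuation α 2 0 Λ ∧ meromorphicOrderAt Λ 1 = 0) →
      IsFiniteType α ∨ IsSatoTate α ∨
        (HasDirichletLaw α (mixedLaw 2 Real.pi) ∧
          ∀ Λ, IsContinuation α 4 0 Λ → meromorphicOrderAt Λ 1 = -1)) := by
  obtain ⟨m, hm0, hm, hord⟩ := exists_mom hα hcont
  obtain ⟨c, hc, hc0, hc1, hc2⟩ := exists_c hα hm0 hm
  have hfin : Fin' α → IsFiniteType α := by
    rintro ⟨N, hN, h⟩
    exact ⟨N, hN, dirichlet_of h⟩
  have hlaw : ∀ L : (ℝ → ℝ) → ℝ, Lf L → (∀ k, L (fun t =>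
      (Polynomial.Chebyshev.C ℝ k).eval t) = c k) → HasDirichletLaw α L :=
    fun L hL h f hf => dirichlet_of (dlaw hα hc hL h f hf)
  have hsh := shapes hα hc hc0
  refine ⟨?_, fun hcont' hsq => ?_⟩
  · rcases hsh with h | h | ⟨n, hn, ε, hε, h⟩ | ⟨n, hn, ε, hε, h⟩
    · exact Or.inl (hfin h)
    · refine Or.inr (Or.inl ⟨1, one_pos, 0, Or.inl rfl, hlaw _ (lf_Ltr 1 0) fun k => ?_⟩)
      rw [cosineLaw_eq, mom_Ltr one_pos, h k]
      split_ifs <;> simp
    · refine Or.inr (Or.inl ⟨n.toNat, by omega, ε, ?_, hlaw _ (lf_Ltr _ _) fun k => ?_⟩)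
      · rcases hε with h1 | h1 <;> rw [h1] <;> norm_num
      · have hn' : 0 < n.toNat := by omega
        rw [cosineLaw_eq, mom_Ltr hn', h k, Int.toNat_of_nonneg hn.le]
        split_ifs <;> norm_num
    · have hn' : 0 < n.toNat := by omega
      rcases hε with h1 | h1
      · refine Or.inr (Or.inr ⟨n.toNat, hn', 0, Or.inl rfl, ?_⟩)
        rw [mixedLaw_eq]
        refine hlaw _ (lf_Lmx hn' 0) fun k => ?_
        rw [mom_Lmx hn' (Or.inl ⟨h1, rfl⟩), h k, Int.toNat_of_nonneg hn.le]
        push_cast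
        split_ifs <;> norm_num
      · refine Or.inr (Or.inr ⟨n.toNat, hn', Real.pi, Or.inr rfl, ?_⟩)
        rw [mixedLaw_eq]
        refine hlaw _ (lf_Lmx hn' _) fun k => ?_
        rw [mom_Lmx hn' (Or.inr ⟨h1, rfl⟩), h k, Int.toNat_of_nonneg hn.le]
        push_cast
        split_ifs <;> norm_num
  · -- the second moment
    have hm2 : m 2 = 0 := by
      obtain ⟨Λ, h1, h2⟩ := hsq
      have h3 := hord 2 (by norm_num) Λ h1
      rw [h2] at h3
      have h4 : ((0 : ℤ) : WithTop ℤ) = ((-m 2 : ℤ) : WithTop ℤ) := h3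
      have h5 : (0 : ℤ) = -m 2 := WithTop.coe_injective h4
      omega
    have hc2' : c 2 = -1 := by
      have h1 := hc2 0
      rw [zero_add, hm2, hm0] at h1
      simpa using h1
    rcases hsh with h | h | ⟨n, hn, ε, hε, h⟩ | ⟨n, hn, ε, hε, h⟩
    · exact Or.inl (hfin h)
    · exfalso
      have h1 := h 2
      rw [hc2', if_neg (by norm_num)] at h1
      norm_num at h1
    · right
      left
      have h1 := h 2
      rw [hc2', if_neg (by norm_num)] at h1
      have hn2 : n = 2 ∧ ε = -1 := by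
        by_cases h2 : (2 : ℤ) = n ∨ (2 : ℤ) = -n
        · rw [if_pos h2] at h1
          omega
        · rw [if_neg h2] at h1
          norm_num at h1
      obtain ⟨rfl, rfl⟩ := hn2
      have hmz : ∀ k : ℕ, 1 ≤ k → m k = 0 := by
        have key : ∀ k : ℕ, m (k + 1) = 0 ∧ m (k + 2) = 0 := by
          intro k
          induction k with
          | zero =>
            refine ⟨?_, hm2⟩
            rw [zero_add, ← hc1, h 1]
            norm_num
          | succ k ih =>
            refine ⟨ih.2, ?_⟩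
            have h2 := hc2 (k + 1)
            rw [h, if_neg (by omega), if_neg (by omega), ih.1, sub_zero] at h2
            exact h2.symm
        intro k hk
        obtain ⟨k', rfl⟩ : ∃ k', k = k' + 1 := ⟨k - 1, by omega⟩
        exact (key k').1
      have hl : ∀ f : ℝ → ℝ, Continuous f → D (fun v => f (2 * (α v).re)) (Ltr 2 (-1) f) :=
        fun f hf => dlaw hα hc (lf_Ltr 2 (-1)) (fun k => by
          rw [mom_Ltr two_pos, h k]
          push_cast
          split_ifs <;> norm_num) f hf
      intro f hf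
      rw [satoTate_eq]
      refine avg_of (nat_law hα (fun k hk => nat_mean hα fun τ => ?_) f hf)
      obtain ⟨Λ, hΛ⟩ := hcont' k hk τ
      exact ⟨Λ, hΛ, orders_zero hα hm hmz hl hk hΛ⟩
    · right
      right
      have h1 := h 2
      rw [hc2', if_neg (by norm_num), zero_add] at h1
      have hn2 : n = 2 ∧ ε = -1 := by
        by_cases h2 : n ∣ 2
        · rw [if_pos h2] at h1
          have h3 := Int.le_of_dvd (by norm_num) h2
          have h4 : n = 1 ∨ n = 2 := by omega
          rcases h4 with rfl | rfl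
          · rcases hε with rfl | rfl <;> norm_num at h1
          · refine ⟨rfl, ?_⟩
            rcases hε with rfl | rfl
            · norm_num at h1
            · rfl
        · rw [if_neg h2] at h1
          norm_num at h1
      obtain ⟨rfl, rfl⟩ := hn2
      refine ⟨?_, fun Λ hΛ => ?_⟩
      · rw [mixedLaw_eq]
        refine hlaw _ (lf_Lmx two_pos _) fun k => ?_
        rw [mom_Lmx two_pos (Or.inr ⟨rfl, rfl⟩), h k]
        push_cast
        split_ifs <;> norm_num
      · have h2 := hc2 2
        have h3 : c (((2 + 2 : ℕ) : ℤ)) = 1 := by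
          rw [h]
          norm_num
        rw [h3, hm2, sub_zero] at h2
        have h4 : m 4 = 1 := h2.symm
        rw [hord 4 (by norm_num) Λ hΛ, h4]
        rfl

end Pool.Agent.Results.MP_4c4ce6_nt.SymmetricPowerRigidity
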